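import Pool.Agent.H624R3.CP.Stmts

/-! Task COV of the project COVPROD, by helper872. -/

namespace Pool.Agent.H872R3.CP

open MeasureTheory Metric Real Filter Topology Pool.Agent.H624R3.CP

theorem key_ineq {R ρ s : ℝ} (hR : 0 < R) (h0 : 0 < ρ) (h1 : ρ ≤ (12 / 10) * R)
    (hs : R ^ 2 / 16 ≤ s) :
    max 0 (((1999 / 2000) * ((1 - 1 / 10000000) * ρ)) ^ 2 - s) ≤
      ((1999 / 2000) * (1 - 2 / 100000)) ^ 2 * max 0 (((1 - 1 / 10000000) * ρ) ^ 2 - s) := by
  have hA : ((1 - 1 / 10000000) * ρ) ^ 2 ≤ (36 / 25) * R ^ 2 := by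
    have h2 : ρ ^ 2 ≤ ((12 / 10) * R) ^ 2 := pow_le_pow_left₀ h0.le h1 2
    nlinarith [sq_nonneg ρ]
  have hA0 : 0 ≤ ((1 - 1 / 10000000) * ρ) ^ 2 := sq_nonneg _
  set A : ℝ := ((1 - 1 / 10000000) * ρ) ^ 2 with hAd
  have hR2 : 0 < R ^ 2 := by positivity
  have e1 : ((1999 / 2000) * ((1 - 1 / 10000000) * ρ)) ^ 2 = (1999 / 2000) ^ 2 * A := by
    rw [hAd]; ring
  rw [e1]
  rcases le_or_gt ((1999 / 2000) ^ 2 * A - s) 0 with h | h
  · rw [max_eq_left h]
    positivity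
  · have h2 : 0 < A - s := by nlinarith
    rw [max_eq_right h.le, max_eq_right h2.le]
    nlinarith

/-- lower bound for the radial integral -/
theorem II_lower (hIVAL : TaskIVAL) {i : ℕ} {ρ : ℝ} (hi : 1 ≤ i) (hρ : 0 < ρ) (hv : 0 ≤ vb i)
    (m : ℕ) : vb i * ρ ^ i / ((i : ℝ) + 1) ^ m ≤ II i ρ m := by
  have hi' : (1 : ℝ) ≤ i := by exact_mod_cast hi
  induction m with
  | zero =>
    rw [(hIVAL i 0 ρ hi hρ).1]
    simp
  | succ m ih =>
    have h1 := (hIVAL i m ρ hi hρ).2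
    have hm : (0 : ℝ) ≤ m := Nat.cast_nonneg m
    have hden : (0 : ℝ) < (i : ℝ) + 2 * (m + 1) := by positivity
    have h2 : II i ρ (m + 1) = 2 * (m + 1) / ((i : ℝ) + 2 * (m + 1)) * II i ρ m := by
      field_simp
      linarith
    rw [h2]
    have h3 : 1 / ((i : ℝ) + 1) ≤ 2 * (m + 1) / ((i : ℝ) + 2 * (m + 1)) := by
      rw [div_le_div_iff₀ (by positivity) hden]
      nlinarith
    calc vb i * ρ ^ i / ((i : ℝ) + 1) ^ (m + 1)
        = 1 / ((i : ℝ) + 1) * (vb i * ρ ^ i / ((i : ℝ) + 1) ^ m) := by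
          rw [pow_succ]
          field_simp
      _ ≤ 2 * (m + 1) / ((i : ℝ) + 2 * (m + 1)) * II i ρ m := by
          apply mul_le_mul h3 ih _ (by positivity)
          positivity

/-- the polynomial against the exponential -/
theorem exists_bound : ∃ N : ℕ, ∀ i : ℕ, N ≤ i →
    (10000000 * exp (-(18 / 1000000) * (i : ℝ))) * ((i : ℝ) + 1) ^ 1000 ≤ 1 / 1000000 := by
  have h1 : Tendsto (fun x : ℝ => x ^ 1000 * exp (-(18 / 1000000) * x)) atTop (𝓝 0) := by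
    have := Real.tendsto_pow_mul_exp_neg_atTop_nhds_zero 1000
    have h2 : Tendsto (fun x : ℝ => (18 / 1000000) * x) atTop atTop :=
      tendsto_id.const_mul_atTop (by norm_num)
    have h3 := (this.comp h2).const_mul ((1000000 / 18 : ℝ) ^ 1000)
    rw [mul_zero] at h3
    refine h3.congr fun x => ?_
    simp only [Function.comp]
    rw [← mul_assoc, ← mul_pow]
    congr 2
    · ring
    · ring
  have h2 : Tendsto (fun i : ℕ => ((i : ℝ) + 1)) atTop atTop :=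
    tendsto_atTop_add_const_right _ _ tendsto_natCast_atTop_atTop
  have h3 := (h1.comp h2).const_mul (10000000 * exp (18 / 1000000))
  rw [mul_zero] at h3
  have h4 : ∀ᶠ i : ℕ in atTop, (10000000 * exp (18 / 1000000)) *
      (((i : ℝ) + 1) ^ 1000 * exp (-(18 / 1000000) * ((i : ℝ) + 1))) < 1 / 1000000 :=
    h3.eventually (gt_mem_nhds (by norm_num))
  obtain ⟨N, hN⟩ := eventually_atTop.1 h4
  refine ⟨N, fun i hi => ?_⟩
  have h5 := (hN i hi).le
  have h6 : exp (18 / 1000000) * exp (-(18 / 1000000) * ((i : ℝ) + 1)) =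
      exp (-(18 / 1000000) * (i : ℝ)) := by
    rw [← exp_add]
    congr 1
    ring
  rw [← h6]
  generalize ((i : ℝ) + 1) ^ 1000 = P at h5 ⊢
  generalize exp (18 / 1000000) = a at h5 ⊢
  generalize exp (-(18 / 1000000) * ((i : ℝ) + 1)) = b at h5 ⊢
  calc _ = (10000000 * a) * (P * b) := by ring
    _ ≤ _ := h5

theorem sq_rpow_half {x : ℝ} (hx : 0 ≤ x) (i : ℕ) : (x ^ 2) ^ ((i : ℝ) / 2) = x ^ i := by
  rw [← Real.rpow_natCast x 2, ← Real.rpow_mul hx, ← Real.rpow_natCast x i]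
  congr 1
  push_cast
  ring

/-- the final contradiction -/
theorem final_num {i ρ ρ' J O r : ℝ} (hi : 10000000 ≤ i) (hρ0 : 0 < ρ)
    (hρ'ρ : ρ' = (1999 / 2000 * (1 - 1 / 10000000)) * ρ)
    (hr : r = (1002 / 1000) * i / (4 * π * ρ)) (hJ0 : 0 < J) (hOJ : O ≤ 1 / 1000000 * J)
    (hlp : 4 * π ^ 2 * r ^ 2 * (J - O) ≤ (500 * i * (i + 4 * 500) /
      ((4 * 500 - 2) * ρ' ^ 2)) * J + (4 * 500 ^ 2 / ρ' ^ 2) * O) : False := by
  have hπ : 0 < π := pi_pos
  have hi0 : 0 < i := by linarith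
  have hρ'0 : 0 < ρ' := by rw [hρ'ρ]; exact mul_pos (by norm_num) hρ0
  have e2 : 4 * π ^ 2 * r ^ 2 * (J - O) * ρ' ^ 2 =
      (1002 / 1000) ^ 2 * (1999 / 2000 * (1 - 1 / 10000000)) ^ 2 / 4 * i ^ 2 * (J - O) := by
    rw [hρ'ρ, hr]
    field_simp
  have e3 : ((500 * i * (i + 4 * 500) / ((4 * 500 - 2) * ρ' ^ 2)) * J +
      (4 * 500 ^ 2 / ρ' ^ 2) * O) * ρ' ^ 2 =
      500 / 1998 * (i ^ 2 + 2000 * i) * J + 1000000 * O := by
    field_simp
    ring
  have h4 := mul_le_mul_of_nonneg_right hlp (sq_nonneg ρ')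
  rw [e2, e3] at h4
  have h5 : (1002 / 1000) ^ 2 * (1999 / 2000 * (1 - 1 / 10000000)) ^ 2 / 4 * i ^ 2 *
      ((1 - 1 / 1000000) * J) ≤ (1002 / 1000) ^ 2 * (1999 / 2000 * (1 - 1 / 10000000)) ^ 2 / 4 *
      i ^ 2 * (J - O) := by
    apply mul_le_mul_of_nonneg_left _ (by positivity)
    linarith
  have h6 : ((1002 / 1000) ^ 2 * (1999 / 2000 * (1 - 1 / 10000000)) ^ 2 / 4 *
      (1 - 1 / 1000000) * i ^ 2) * J ≤ (500 / 1998 * (i ^ 2 + 2000 * i) + 1) * J := by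
    linarith
  have h7 := le_of_mul_le_mul_right h6 hJ0
  nlinarith [h7, hi, mul_le_mul_of_nonneg_right hi hi0.le]

/-- Task COV -/
theorem taskCOV : TaskLP → TaskSTAR → TaskIVAL → TaskBALL → TaskCOV := by
  intro hLP hSTAR hIVAL hBALL
  obtain ⟨N, hN⟩ := exists_bound
  refine ⟨1 / 1000000000, by norm_num, 1000 * max N 10000000, ?_⟩
  intro d hd M hdet hshort S i ρ hrank hdi hρ1 hρ2 hcount x0
  by_contra hcon
  push Not at hcon
  have hNi : N ≤ i := by
    have : 1000 * max N 10000000 ≤ 1000 * i := hd.trans hdi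
    have h2 : max N 10000000 ≤ i := Nat.le_of_mul_le_mul_left this (by norm_num)
    exact (le_max_left _ _).trans h2
  have hi7 : 10000000 ≤ i := by
    have : 1000 * max N 10000000 ≤ 1000 * i := hd.trans hdi
    have h2 : max N 10000000 ≤ i := Nat.le_of_mul_le_mul_left this (by norm_num)
    exact (le_max_right _ _).trans h2
  have hi1 : 1 ≤ i := le_trans (by norm_num) hi7
  have hi7' : (10000000 : ℝ) ≤ i := by exact_mod_cast hi7
  have hi0 : (0 : ℝ) < i := by linarith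
  have hd1 : 1 ≤ d := by
    have h2 : (10000000 : ℕ) ≤ max N 10000000 := le_max_right _ _
    omega
  have hRd : 0 < Rd d := by
    unfold Rd
    apply Real.sqrt_pos.2
    have : (0 : ℝ) < d := by exact_mod_cast hd1
    positivity
  have hρ0 : 0 < ρ := lt_of_lt_of_le (by positivity) hρ1
  have hdet0 : M.det ≠ 0 := by
    intro h
    rw [h] at hdet
    simp at hdet
  have hvb : 0 < vb i := (hBALL i hi1).1
  -- constants
  set ρb : ℝ := (1 - 1 / 10000000) * ρ with hρb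
  have hρb0 : 0 < ρb := by rw [hρb]; exact mul_pos (by norm_num) hρ0
  set η : ℝ := (ρ ^ 2 - ρb ^ 2) / (2 * ρb) with hη
  have hdiff : ρ ^ 2 - ρb ^ 2 = (1 - (1 - 1 / 10000000) ^ 2) * ρ ^ 2 := by rw [hρb]; ring
  have hη0 : 0 < η := by
    rw [hη, hdiff]
    apply div_pos (mul_pos (by norm_num) (by positivity)) (by positivity)
  have hηρ : η ≤ ρb := by
    rw [hη, div_le_iff₀ (by positivity), hdiff, hρb]
    nlinarith [sq_nonneg ρ, hρ0]
  have hsum : ρb ^ 2 + 2 * η * ρb = ρ ^ 2 := by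
    rw [hη]
    field_simp
    ring
  have hsqrt : √(ρb ^ 2 + 2 * η * ρb) = ρ := by
    rw [hsum]
    exact Real.sqrt_sq hρ0.le
  have hratio : ρb / η ≤ 10000000 := by
    rw [div_le_iff₀ hη0, hη]
    rw [mul_div_assoc', le_div_iff₀ (by positivity), hdiff, hρb]
    nlinarith [sq_nonneg ρ, hρ0]
  set ρ' : ℝ := (1999 / 2000) * ρb with hρ'
  have hρ'0 : 0 < ρ' := by rw [hρ']; positivity
  -- the count
  have hstar := hSTAR d i M S ρb η (exp (1 / 1000000000 * (d : ℝ))) hdet0 hrank hi1 hη0 hηρ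
    (by
      intro p T hT
      rw [hsqrt] at hT
      exact hcount p T hT)
  rw [hsqrt] at hstar
  have hexpd : exp (1 / 1000000000 * (d : ℝ)) ≤ exp ((1 / 1000000) * (i : ℝ)) := by
    apply exp_le_exp.2
    have : (d : ℝ) ≤ 1000 * i := by exact_mod_cast hdi
    linarith
  set κ : ℝ := (1999 / 2000) * (1 - 2 / 100000) with hκ
  have hκ0 : 0 ≤ κ := by rw [hκ]; norm_num
  -- bound of the overlaps
  set O : ℝ := vb i * ρ' ^ i * (10000000 * exp (-(18 / 1000000) * (i : ℝ))) with hO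
  have hOb : ∀ T : Finset (Fin d → ℤ), (∀ z ∈ T, z ≠ 0 ∧ lp M z ∈ S) →
      vb i * ∑ z ∈ T, (max 0 (ρ' ^ 2 - ‖lp M z‖ ^ 2 / 4)) ^ ((i : ℝ) / 2) ≤ O := by
    intro T hT
    have h1 := hstar T (fun z hz => (hT z hz).2)
    have h2 : ∑ z ∈ T, (max 0 (ρ' ^ 2 - ‖lp M z‖ ^ 2 / 4)) ^ ((i : ℝ) / 2) ≤
        κ ^ i * ∑ z ∈ T, (max 0 (ρb ^ 2 - ‖lp M z‖ ^ 2 / 4)) ^ ((i : ℝ) / 2) := by
      rw [Finset.mul_sum]
      refine Finset.sum_le_sum fun z hz => ?_
      have hs : Rd d ^ 2 / 16 ≤ ‖lp M z‖ ^ 2 / 4 := by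
        have h3 := hshort z (hT z hz).1
        have h4 : (Rd d / 2) ^ 2 ≤ ‖lp M z‖ ^ 2 := pow_le_pow_left₀ (by positivity) h3.le 2
        nlinarith
      have h3 := key_ineq hRd hρ0 hρ2 hs
      have h4 : (max 0 (ρ' ^ 2 - ‖lp M z‖ ^ 2 / 4)) ^ ((i : ℝ) / 2) ≤
          (κ ^ 2 * max 0 (ρb ^ 2 - ‖lp M z‖ ^ 2 / 4)) ^ ((i : ℝ) / 2) :=
        Real.rpow_le_rpow (le_max_left _ _) h3 (by positivity)
      rw [Real.mul_rpow (by positivity) (le_max_left _ _), sq_rpow_half hκ0] at h4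
      exact h4
    have hρi : κ ^ i * ρ ^ i ≤ ρ' ^ i * exp (-(199 / 10000000) * (i : ℝ)) := by
      have h3 : κ * ρ ≤ ρ' * exp (-(199 / 10000000)) := by
        have h4 : 1 - 199 / 10000000 ≤ exp (-(199 / 10000000 : ℝ)) := by
          have := Real.add_one_le_exp (-(199 / 10000000 : ℝ))
          linarith
        have h5 : κ * ρ ≤ ρ' * (1 - 199 / 10000000) := by
          rw [hρ', hρb, hκ]
          nlinarith
        exact h5.trans (mul_le_mul_of_nonneg_left h4 hρ'0.le)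
      rw [← mul_pow]
      have h6 := pow_le_pow_left₀ (mul_nonneg hκ0 hρ0.le) h3 i
      rw [mul_pow ρ'] at h6
      have h7 : exp (-(199 / 10000000)) ^ i = exp (-(199 / 10000000) * (i : ℝ)) := by
        rw [← Real.exp_nat_mul]
        congr 1
        ring
      rw [h7] at h6
      exact h6
    have h5 : κ ^ i * ∑ z ∈ T, (max 0 (ρb ^ 2 - ‖lp M z‖ ^ 2 / 4)) ^ ((i : ℝ) / 2) ≤
        ρ' ^ i * (10000000 * exp (-(18 / 1000000) * (i : ℝ))) := by
      calc κ ^ i * ∑ z ∈ T, (max 0 (ρb ^ 2 - ‖lp M z‖ ^ 2 / 4)) ^ ((i : ℝ) / 2)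
          ≤ κ ^ i * (ρb / η * exp (1 / 1000000000 * (d : ℝ)) * ρ ^ i) :=
            mul_le_mul_of_nonneg_left h1 (by positivity)
        _ ≤ κ ^ i * (10000000 * exp ((1 / 1000000) * (i : ℝ)) * ρ ^ i) := by
            apply mul_le_mul_of_nonneg_left _ (by positivity)
            apply mul_le_mul_of_nonneg_right _ (by positivity)
            exact mul_le_mul hratio hexpd (exp_pos _).le (by norm_num)
        _ = 10000000 * exp ((1 / 1000000) * (i : ℝ)) * (κ ^ i * ρ ^ i) := by ring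
        _ ≤ 10000000 * exp ((1 / 1000000) * (i : ℝ)) *
            (ρ' ^ i * exp (-(199 / 10000000) * (i : ℝ))) :=
            mul_le_mul_of_nonneg_left hρi (by positivity)
        _ = ρ' ^ i * (10000000 * (exp ((1 / 1000000) * (i : ℝ)) *
            exp (-(199 / 10000000) * (i : ℝ)))) := by ring
        _ ≤ ρ' ^ i * (10000000 * exp (-(18 / 1000000) * (i : ℝ))) := by
            apply mul_le_mul_of_nonneg_left _ (by positivity)
            apply mul_le_mul_of_nonneg_left _ (by norm_num)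
            rw [← exp_add]
            apply exp_le_exp.2
            nlinarith
    calc vb i * ∑ z ∈ T, (max 0 (ρ' ^ 2 - ‖lp M z‖ ^ 2 / 4)) ^ ((i : ℝ) / 2)
        ≤ vb i * (ρ' ^ i * (10000000 * exp (-(18 / 1000000) * (i : ℝ)))) :=
          mul_le_mul_of_nonneg_left (h2.trans h5) hvb.le
      _ = O := by rw [hO]; ring
  set r : ℝ := (1002 / 1000) * i / (4 * π * ρ) with hr
  have hr0 : 0 ≤ r := by rw [hr]; positivity
  have hlp := hLP d i 500 M S x0 r ρ' O hdet0 hrank hi1 (by norm_num) hρ'0 hr0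
    (fun z => (hcon z).le) hOb
  have hJ1 := II_lower hIVAL hi1 hρ'0 hvb.le (2 * 500)
  have h1 := hN i hNi
  have e1000 : (2 * 500 : ℕ) = 1000 := rfl
  rw [e1000] at hlp hJ1
  have hP0 : (0 : ℝ) < ((i : ℝ) + 1) ^ 1000 := by positivity
  generalize ((i : ℝ) + 1) ^ 1000 = P at h1 hJ1 hP0
  generalize hJ : II i ρ' 1000 = J at hlp hJ1
  have hV : 0 < vb i * ρ' ^ i := by positivity
  have hJ0 : 0 < J := lt_of_lt_of_le (by positivity) hJ1
  have hOJ : O ≤ 1 / 1000000 * J := by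
    have h2 : 10000000 * exp (-(18 / 1000000) * (i : ℝ)) ≤ 1 / 1000000 / P := by
      rw [le_div_iff₀ hP0]
      exact h1
    calc O ≤ vb i * ρ' ^ i * (1 / 1000000 / P) := by
          rw [hO]
          exact mul_le_mul_of_nonneg_left h2 hV.le
      _ = 1 / 1000000 * (vb i * ρ' ^ i / P) := by ring
      _ ≤ 1 / 1000000 * J := mul_le_mul_of_nonneg_left hJ1 (by norm_num)
  have hO0 : 0 ≤ O := by rw [hO]; positivity
  clear_value O
  have hρ'ρ : ρ' = (1999 / 2000 * (1 - 1 / 10000000)) * ρ := by rw [hρ', hρb]; ring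
  push_cast at hlp
  exact final_num hi7' hρ0 hρ'ρ hr hJ0 hOJ hlp

end Pool.Agent.H872R3.CP
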